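import Pool.Agent.H97.Tw

open Pool.Agent.H97.Tw

namespace Pool.Agent.Results.MP_8983f3_an.No

theorem result : ∃ (X Y M : Type) (_ : NormedAddCommGroup X) (_ : NormedSpace ℝ X)
    (_ : NormedAddCommGroup Y) (_ : NormedSpace ℝ Y) (_ : NormedAddCommGroup M)
    (_ : NormedSpace ℝ M) (j : M →L[ℝ] Y) (φ : X → Y),
    CompleteSpace X ∧ CompleteSpace Y ∧ CompleteSpace M ∧ TopologicalSpace.SeparableSpace X ∧
    TopologicalSpace.SeparableSpace Y ∧ Function.Injective j ∧ (∀ m, ‖j m‖ ≤ ‖m‖) ∧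
    @Measurable _ _ (borel X) (borel Y) φ ∧
    (∀ (c d : ℝ) x y, φ (c • x + d • y) - (c • φ x + d • φ y) ∈ Set.range j) ∧
    ¬ ∃ (V : Type) (_ : NormedAddCommGroup V) (_ : NormedSpace ℝ V) (ι : V →ₗ[ℝ] X),
      CompleteSpace V ∧ Set.range ι = φ ⁻¹' Set.range j ∧
      @Measurable _ _ (borel V) (borel X) ι := by
  refine ⟨L × L, L, L, inferInstance, inferInstance, inferInstance, inferInstance, inferInstance,
    inferInstance, D, fun p => p.1 - Om p.2, inferInstance, inferInstance, inferInstance,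
    inferInstance, inferInstance, D_inj, fun m => ?_, ?_,
    fun c d x y => ?_, fun ⟨V, _, _, ι, _, h, hm⟩ => main ι hm fun p => by rw [h]; rfl⟩
  · simpa using D.le_of_opNorm_le D_norm m
  · borelize L
    rw [← BorelSpace.measurable_eq (α := L × L)]
    exact measurable_fst.sub (Om_meas.comp measurable_snd)
  · obtain ⟨m, hm⟩ := Om_lin c d x.2 y.2
    refine ⟨-m, ?_⟩
    simp only [map_neg, hm, Prod.fst_add, Prod.snd_add, Prod.smul_fst, Prod.smul_snd, smul_sub]
    abel

end Pool.Agent.Results.MP_8983f3_an.No
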